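import Pool.Agent.H.MP_6c3571_pr.A

/-! The weighted vertex Cheeger bound for the heavy-cluster threshold fails on an oriented tree. -/

open MeasureTheory
open scoped ENNReal

namespace Pool.Agent.Results.MP_6c3571_pr.Fails

/-- size of the orbit of `y` under the stabiliser of `x` -/
noncomputable def m {V : Type} {G : SimpleGraph V} (Γ : Subgroup (G ≃g G)) (x y : V) : ℕ :=
  {z | ∃ γ ∈ Γ, γ x = x ∧ γ y = z}.ncard

/-- weight of a set of vertices -/
noncomputable def wt {V : Type} {G : SimpleGraph V} (Γ : Subgroup (G ≃g G)) (o : V) (K : Set V) : ℝ≥0∞ :=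
  ∑' x : K, ENNReal.ofReal (m Γ x o / m Γ o x)

/-- weighted vertex Cheeger constant -/
noncomputable def Φ {V : Type} {G : SimpleGraph V} (Γ : Subgroup (G ≃g G)) (o : V) : ℝ≥0∞ :=
  ⨅ (F : Finset V) (_ : F.Nonempty), wt Γ o {y | y ∉ F ∧ ∃ x ∈ F, G.Adj x y} / wt Γ o F

/-- heavy-cluster threshold -/
noncomputable def ph {V : Type} {G : SimpleGraph V} (Γ : Subgroup (G ≃g G)) (o : V) : unitInterval :=
  sInf {p | 0 < Measure.infinitePi (fun _ : Sym2 V => (volume : Measure unitInterval))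
    {ω | ∃ x, wt Γ o {y | ∃ w : G.Walk x y, ∀ e ∈ w.edges, ω e < p} = ⊤}}

theorem result : ∃ (V : Type) (G : SimpleGraph V) (Γ : Subgroup (G ≃g G)) (o : V), Infinite V ∧ G.Connected ∧
    (∀ v, (G.neighborSet v).Finite) ∧ (∀ φ : G ≃g G, (∀ F : Finset V, ∃ γ ∈ Γ, ∀ x ∈ F, γ x = φ x) → φ ∈ Γ) ∧
    (∀ x y, ∃ γ ∈ Γ, γ x = y) ∧ 1 / (Φ Γ o + 1) < ENNReal.ofReal (ph Γ o) :=
  Pool.Agent.H.MP_6c3571_pr.main

end Pool.Agent.Results.MP_6c3571_pr.Fails
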